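import Pool.Agent.W674.Tits.Basic

set_option autoImplicit false

namespace Pool.Agent.W674.Tits

open Matrix OnePoint

namespace Data

variable {K : Type} [Field K] (D : Data K) [DecidableEq K]

theorem ext_perm (g h : D.G) (h0 : (g : Equiv.Perm (OnePoint K)) ∞ = (h : Equiv.Perm (OnePoint K)) ∞)
    (h1 : ∀ x : K, (g : Equiv.Perm (OnePoint K)) (x : OnePoint K) =
      (h : Equiv.Perm (OnePoint K)) (x : OnePoint K)) : g = h := by
  apply Subtype.ext
  apply Equiv.ext
  intro x
  induction x using OnePoint.rec with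
  | infty => exact h0
  | coe x => exact h1 x

/-- three point stabilisers are trivial (base case) -/
theorem triv (g : D.G) (h1 : (g : Equiv.Perm (OnePoint K)) ∞ = ∞)
    (h2 : (g : Equiv.Perm (OnePoint K)) ((0 : K) : OnePoint K) = ((0 : K) : OnePoint K))
    (h3 : (g : Equiv.Perm (OnePoint K)) ((1 : K) : OnePoint K) = ((1 : K) : OnePoint K)) :
    g = 1 := by
  obtain ⟨u, hu, h⟩ := D.stab g h1 h2
  have hu1 : u = 1 := by
    have := h 1
    rw [h3, map_one, mul_one, OnePoint.coe_eq_coe] at this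
    exact this.symm
  apply D.ext_perm g 1 h1
  intro x
  rw [h x, hu1, D.par_one, D.tw_zero]
  simp

/-- no involutions in two point stabilisers (base case) -/
theorem noinv [CharP K 2] (g : D.G) (h1 : (g : Equiv.Perm (OnePoint K)) ∞ = ∞)
    (h2 : (g : Equiv.Perm (OnePoint K)) ((0 : K) : OnePoint K) = ((0 : K) : OnePoint K))
    (hg : g * g = 1) : g = 1 := by
  obtain ⟨u, hu, h⟩ := D.stab g h1 h2
  have h4 : (g : Equiv.Perm (OnePoint K)) ((g : Equiv.Perm (OnePoint K)) ((1 : K) : OnePoint K))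
      = ((1 : K) : OnePoint K) := by
    have := congrArg (fun k : D.G => (k : Equiv.Perm (OnePoint K)) ((1 : K) : OnePoint K)) hg
    exact this
  rw [h 1, map_one, mul_one, h u, OnePoint.coe_eq_coe] at h4
  have h5 : D.d u + D.d u = 0 := by
    have h6 := D.d_mul u (D.tw (D.par u) u) hu (by
      intro h7
      rw [h7, mul_zero] at h4
      exact zero_ne_one h4)
    rw [h4, D.d_one, D.d_tw] at h6
    exact h6.symm
  have h6 : D.par u = 0 := by
    unfold par
    have : D.d u = 0 := by omega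
    rw [this]; rfl
  rw [h6, D.tw_zero, RingHom.id_apply] at h4
  have hu1 : u = 1 := by
    have h8 : (u - 1) ^ 2 = 0 := by
      rw [sub_pow_char]
      rw [one_pow, pow_two, h4, sub_self]
    have := pow_eq_zero_iff (two_ne_zero) |>.1 h8
    exact sub_eq_zero.1 this
  apply D.ext_perm g 1 h1
  intro x
  rw [h x, hu1, D.par_one, D.tw_zero]
  simp

theorem main [CharP K 2] (a u : K) (hu : u ≠ 0) (hpu : D.par u = 1) (ha : a ≠ 0)
    (hpa : D.par a = 0) (hτ : D.τ a ≠ a) :
    (∃ a b c : OnePoint K, a ≠ b ∧ a ≠ c ∧ b ≠ c) ∧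
      (∀ a b c a' b' c' : OnePoint K, a ≠ b → a ≠ c → b ≠ c → a' ≠ b' → a' ≠ c' → b' ≠ c' →
        ∃ g : D.G, g • a = a' ∧ g • b = b' ∧ g • c = c') ∧
      (∀ a b : OnePoint K, a ≠ b → ∀ g : D.G, g • a = a → g • b = b → g * g = 1 → g = 1) ∧
      (∀ a b c : OnePoint K, a ≠ b → a ≠ c → b ≠ c → ∀ g : D.G,
        g • a = a → g • b = b → g • c = c → g = 1) ∧
      ¬ ∃ (P : Type) (_ : Field P), CharP P 2 ∧
        ∃ e : OnePoint K ≃ Projectivization P (Fin 2 → P),
          ∀ σ : Equiv.Perm (Projectivization P (Fin 2 → P)),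
            ((∃ g : D.G, ∀ x : OnePoint K, σ (e x) = e (g • x)) ↔
              ∃ A : Matrix.GeneralLinearGroup (Fin 2) P,
                ∀ (v : Fin 2 → P) (hv : v ≠ 0) (w : Fin 2 → P) (hw : w ≠ 0),
                  w = Matrix.mulVec (A : Matrix (Fin 2) (Fin 2) P) v →
                    σ (Projectivization.mk P v hv) = Projectivization.mk P w hw) := by
  have hsm : ∀ (g : D.G) (x : OnePoint K), g • x = (g : Equiv.Perm (OnePoint K)) x :=
    fun _ _ => rfl
  have third : ∀ a b : OnePoint K, a ≠ b → ∃ c, a ≠ c ∧ b ≠ c := by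
    intro a b hab
    by_contra hcon
    push_neg at hcon
    have h1 := hcon ∞
    have h2 := hcon ((0 : K) : OnePoint K)
    have h3 := hcon ((1 : K) : OnePoint K)
    have e1 : (∞ : OnePoint K) ≠ ((0 : K) : OnePoint K) := OnePoint.infty_ne_coe _
    have e2 : (∞ : OnePoint K) ≠ ((1 : K) : OnePoint K) := OnePoint.infty_ne_coe _
    have e3 : ((0 : K) : OnePoint K) ≠ ((1 : K) : OnePoint K) := by
      rw [Ne, OnePoint.coe_eq_coe]; exact zero_ne_one
    by_cases c1 : a = ∞
    · by_cases c2 : a = ((0 : K) : OnePoint K)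
      · exact e1 (c1.symm.trans c2)
      · have := h2 c2
        by_cases c3 : a = ((1 : K) : OnePoint K)
        · exact e2 (c1.symm.trans c3)
        · exact e3 (this.symm.trans (h3 c3))
    · have k1 := h1 c1
      by_cases c2 : a = ((0 : K) : OnePoint K)
      · by_cases c3 : a = ((1 : K) : OnePoint K)
        · exact e3 (c2.symm.trans c3)
        · exact e2 (k1.symm.trans (h3 c3))
      · exact e1 (k1.symm.trans (h2 c2))
  refine ⟨⟨∞, ((0 : K) : OnePoint K), ((1 : K) : OnePoint K), OnePoint.infty_ne_coe _,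
    OnePoint.infty_ne_coe _, ?_⟩, ?_, ?_, ?_, ?_⟩
  · rw [Ne, OnePoint.coe_eq_coe]; exact zero_ne_one
  · intro a b c a' b' c' hab hac hbc hab' hac' hbc'
    obtain ⟨g, g1, g2, g3⟩ := D.tr a b c hab hac hbc
    obtain ⟨h, h1, h2, h3⟩ := D.tr a' b' c' hab' hac' hbc'
    rw [← hsm] at g1 g2 g3 h1 h2 h3
    refine ⟨h * g⁻¹, ?_, ?_, ?_⟩
    · rw [mul_smul, ← g1, inv_smul_smul, h1]
    · rw [mul_smul, ← g2, inv_smul_smul, h2]
    · rw [mul_smul, ← g3, inv_smul_smul, h3]
  · intro a b hab k h1 h2 hk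
    obtain ⟨c, hac, hbc⟩ := third a b hab
    obtain ⟨g, g1, g2, -⟩ := D.tr a b c hab hac hbc
    rw [← hsm] at g1 g2
    have := D.noinv (g⁻¹ * k * g) (by
      rw [← hsm, mul_smul, mul_smul, g1, h1, ← g1, inv_smul_smul]) (by
      rw [← hsm, mul_smul, mul_smul, g2, h2, ← g2, inv_smul_smul]) (by
      calc g⁻¹ * k * g * (g⁻¹ * k * g) = g⁻¹ * (k * k) * g := by group
        _ = 1 := by rw [hk]; group)
    calc k = g * (g⁻¹ * k * g) * g⁻¹ := by group
      _ = 1 := by rw [this]; group
  · intro a b c hab hac hbc k h1 h2 h3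
    obtain ⟨g, g1, g2, g3⟩ := D.tr a b c hab hac hbc
    rw [← hsm] at g1 g2 g3
    have := D.triv (g⁻¹ * k * g) (by
      rw [← hsm, mul_smul, mul_smul, g1, h1, ← g1, inv_smul_smul]) (by
      rw [← hsm, mul_smul, mul_smul, g2, h2, ← g2, inv_smul_smul]) (by
      rw [← hsm, mul_smul, mul_smul, g3, h3, ← g3, inv_smul_smul])
    calc k = g * (g⁻¹ * k * g) * g⁻¹ := by group
      _ = 1 := by rw [this]; group
  · rintro ⟨P, _, _, e, he⟩
    obtain ⟨g, g1, g2⟩ := D.diag_mem u hu
    obtain ⟨k, k1, k2⟩ := D.diag_mem a ha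
    rw [hpu, tw_one] at g2
    rw [hpa, tw_zero] at k2
    have gz : (g : Equiv.Perm (OnePoint K)) ((0 : K) : OnePoint K) = ((0 : K) : OnePoint K) := by
      rw [g2, map_zero, mul_zero]
    have kz : (k : Equiv.Perm (OnePoint K)) ((0 : K) : OnePoint K) = ((0 : K) : OnePoint K) := by
      rw [k2, map_zero, mul_zero]
    -- they do not commute
    have hnc : (g : Equiv.Perm (OnePoint K)) ((k : Equiv.Perm (OnePoint K)) ((1 : K) : OnePoint K))
        ≠ (k : Equiv.Perm (OnePoint K)) ((g : Equiv.Perm (OnePoint K)) ((1 : K) : OnePoint K)) := by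
      rw [k2 1, g2, g2 1, k2, Ne, OnePoint.coe_eq_coe]
      simp only [RingHom.id_apply, mul_one, map_one]
      intro h
      apply hτ
      rw [mul_comm] at h
      exact mul_right_cancel₀ hu h
    apply hnc
    -- transport
    let s : Equiv.Perm (OnePoint K) → Equiv.Perm (Projectivization P (Fin 2 → P)) :=
      fun g => (e.symm.trans g).trans e
    have hs : ∀ g : Equiv.Perm (OnePoint K), ∀ x, s g (e x) = e (g x) := by
      intro g x; simp [s]
    obtain ⟨A, hA⟩ := (he (s g)).1 ⟨g, fun x => hs g x⟩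
    obtain ⟨B, hB⟩ := (he (s k)).1 ⟨k, fun x => hs k x⟩
    have inj : ∀ (A : Matrix.GeneralLinearGroup (Fin 2) P) (v : Fin 2 → P), v ≠ 0 →
        Matrix.mulVec (A : Matrix (Fin 2) (Fin 2) P) v ≠ 0 := by
      intro A v hv h
      apply hv
      have : Matrix.mulVec ((A⁻¹ : Matrix.GeneralLinearGroup (Fin 2) P) :
          Matrix (Fin 2) (Fin 2) P) (Matrix.mulVec (A : Matrix (Fin 2) (Fin 2) P) v) = v := by
        rw [Matrix.mulVec_mulVec, ← Units.val_mul, inv_mul_cancel]
        simp
      rw [← this, h, Matrix.mulVec_zero]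
    set p := e ∞ with hp
    set q := e ((0 : K) : OnePoint K) with hq
    have hpq : p ≠ q := by
      intro h
      exact OnePoint.infty_ne_coe _ (e.injective h)
    set v := p.rep with hv
    set w := q.rep with hw
    have hv0 : v ≠ 0 := p.rep_nonzero
    have hw0 : w ≠ 0 := q.rep_nonzero
    have hvp : Projectivization.mk P v hv0 = p := p.mk_rep
    have hwq : Projectivization.mk P w hw0 = q := q.mk_rep
    have eig : ∀ (A : Matrix.GeneralLinearGroup (Fin 2) P) (σ : Equiv.Perm (Projectivization P (Fin 2 → P)))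
        (_ : ∀ (v : Fin 2 → P) (hv : v ≠ 0) (w : Fin 2 → P) (hw : w ≠ 0),
                  w = Matrix.mulVec (A : Matrix (Fin 2) (Fin 2) P) v →
                    σ (Projectivization.mk P v hv) = Projectivization.mk P w hw)
        (v : Fin 2 → P) (hv : v ≠ 0)
        (_ : σ (Projectivization.mk P v hv) = Projectivization.mk P v hv),
        ∃ c : P, Matrix.mulVec (A : Matrix (Fin 2) (Fin 2) P) v = c • v := by
      intro A σ h v hv h'
      have h1 := h v hv _ (inj A v hv) rfl
      rw [h', Projectivization.mk_eq_mk_iff'] at h1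
      obtain ⟨c, hc⟩ := h1
      have hc0 : c ≠ 0 := by
        rintro rfl
        rw [zero_smul] at hc
        exact hv hc.symm
      refine ⟨c⁻¹, ?_⟩
      calc Matrix.mulVec (A : Matrix (Fin 2) (Fin 2) P) v
          = c⁻¹ • (c • Matrix.mulVec (A : Matrix (Fin 2) (Fin 2) P) v) := by
            rw [smul_smul, inv_mul_cancel₀ hc0, one_smul]
        _ = c⁻¹ • v := by rw [hc]
    have gp : s g (Projectivization.mk P v hv0) = Projectivization.mk P v hv0 := by
      rw [hvp, hp, hs, g1]
    have kp : s k (Projectivization.mk P v hv0) = Projectivization.mk P v hv0 := by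
      rw [hvp, hp, hs, k1]
    have gq : s g (Projectivization.mk P w hw0) = Projectivization.mk P w hw0 := by
      rw [hwq, hq, hs, gz]
    have kq : s k (Projectivization.mk P w hw0) = Projectivization.mk P w hw0 := by
      rw [hwq, hq, hs, kz]
    obtain ⟨a1, ha1⟩ := eig A _ hA v hv0 gp
    obtain ⟨a2, ha2⟩ := eig A _ hA w hw0 gq
    obtain ⟨b1, hb1⟩ := eig B _ hB v hv0 kp
    obtain ⟨b2, hb2⟩ := eig B _ hB w hw0 kq
    -- v, w span
    have hli : LinearIndependent P ![v, w] := by
      rw [LinearIndependent.pair_iff' hv0]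
      intro c hc
      apply hpq
      rw [← hvp, ← hwq, Projectivization.mk_eq_mk_iff']
      have hc0 : c ≠ 0 := by
        rintro rfl
        rw [zero_smul] at hc
        exact hw0 hc.symm
      exact ⟨c⁻¹, by rw [← hc, smul_smul, inv_mul_cancel₀ hc0, one_smul]⟩
    have hspan : ∀ x : Fin 2 → P, ∃ c d : P, x = c • v + d • w := by
      intro x
      have h1 := hli.span_eq_top_of_card_eq_finrank' (by simp)
      have h2 : x ∈ Submodule.span P (Set.range ![v, w]) := by rw [h1]; trivial
      rw [Matrix.range_cons, Matrix.range_cons, Matrix.range_empty, Set.union_empty,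
        Set.singleton_union, Submodule.mem_span_pair] at h2
      obtain ⟨c, d, h⟩ := h2
      exact ⟨c, d, h.symm⟩
    have hcomm : ∀ x : Fin 2 → P, Matrix.mulVec (A : Matrix (Fin 2) (Fin 2) P)
        (Matrix.mulVec (B : Matrix (Fin 2) (Fin 2) P) x) =
        Matrix.mulVec (B : Matrix (Fin 2) (Fin 2) P)
        (Matrix.mulVec (A : Matrix (Fin 2) (Fin 2) P) x) := by
      intro x
      obtain ⟨c, d, rfl⟩ := hspan x
      simp only [Matrix.mulVec_add, Matrix.mulVec_smul, ha1, ha2, hb1, hb2, smul_smul]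
      rw [mul_right_comm c b1 a1, mul_right_comm d b2 a2]
    have hfin : ∀ y, s g (s k y) = s k (s g y) := by
      intro y
      induction y using Projectivization.ind with
      | h y hy =>
        rw [hB y hy _ (inj B y hy) rfl, hA y hy _ (inj A y hy) rfl,
          hA _ (inj B y hy) _ (inj A _ (inj B y hy)) rfl,
          hB _ (inj A y hy) _ (inj B _ (inj A y hy)) rfl]
        congr 1
        exact hcomm y
    have := hfin (e ((1 : K) : OnePoint K))
    rw [hs, hs, hs, hs] at this
    exact e.injective this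

end Data

open Polynomial in
/-- substitution `t ↦ t + 1` -/
noncomputable def tau : RatFunc (ZMod 2) →+* RatFunc (ZMod 2) :=
  RatFunc.mapRingHom (Polynomial.taylorAlgHom (1 : ZMod 2)) (by
    intro p hp
    rw [Submonoid.mem_comap, mem_nonZeroDivisors_iff_ne_zero]
    rw [mem_nonZeroDivisors_iff_ne_zero] at hp
    intro h
    apply hp
    exact (Polynomial.taylor_eq_zero (1 : ZMod 2) p).1 h)

open Polynomial in
theorem tau_div (p q : (ZMod 2)[X]) : tau (algebraMap _ _ p / algebraMap _ _ q) =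
    algebraMap _ _ (taylor 1 p) / algebraMap _ _ (taylor 1 q) := by
  unfold tau
  rw [RatFunc.coe_mapRingHom_eq_coe_map, RatFunc.map_apply_div]
  rfl

open Polynomial in
theorem tau_tau (x : RatFunc (ZMod 2)) : tau (tau x) = x := by
  rw [← RatFunc.num_div_denom x, tau_div, tau_div, taylor_taylor, taylor_taylor]
  have : (1 : ZMod 2) + 1 = 0 := by decide
  rw [this]
  simp

open Polynomial in
theorem deg_tau (x : RatFunc (ZMod 2)) : (tau x).intDegree = x.intDegree := by
  by_cases hx : x = 0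
  · rw [hx, map_zero]
  have h1 : x.num ≠ 0 := RatFunc.num_ne_zero hx
  have h2 : x.denom ≠ 0 := RatFunc.denom_ne_zero x
  have key : ∀ p : (ZMod 2)[X], p ≠ 0 → (algebraMap (ZMod 2)[X] (RatFunc (ZMod 2)) p) ≠ 0 := by
    intro p hp
    exact RatFunc.algebraMap_ne_zero hp
  have key2 : ∀ p : (ZMod 2)[X], p ≠ 0 → taylor 1 p ≠ 0 := fun p hp h =>
    hp ((Polynomial.taylor_eq_zero (1 : ZMod 2) p).1 h)
  conv_rhs => rw [← RatFunc.num_div_denom x]
  rw [← RatFunc.num_div_denom x, tau_div, RatFunc.intDegree_div (key _ (key2 _ h1)) (key _ (key2 _ h2)),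
    RatFunc.num_div_denom,
    RatFunc.intDegree_div (key _ h1) (key _ h2), RatFunc.intDegree_polynomial,
    RatFunc.intDegree_polynomial, RatFunc.intDegree_polynomial, RatFunc.intDegree_polynomial,
    natDegree_taylor, natDegree_taylor]

/-- the data over `F_2(t)` -/
noncomputable def dat : Data (RatFunc (ZMod 2)) where
  τ := tau
  invol := tau_tau
  d := RatFunc.intDegree
  d_mul := fun _ _ hx hy => RatFunc.intDegree_mul hx hy
  d_τ := deg_tau

theorem par_X : dat.par RatFunc.X = 1 := by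
  unfold Data.par dat
  simp

theorem par_X2 : dat.par (RatFunc.X * RatFunc.X) = 0 := by
  rw [dat.par_mul RatFunc.X_ne_zero RatFunc.X_ne_zero, par_X]
  decide

open Polynomial in
theorem tau_X : tau RatFunc.X = RatFunc.X + 1 := by
  have h : (RatFunc.X : RatFunc (ZMod 2)) = algebraMap _ _ (X : (ZMod 2)[X]) / algebraMap _ _ (1 : (ZMod 2)[X]) := by
    simp
  rw [h, tau_div]
  simp [taylor_X]

theorem tau_X2 : tau (RatFunc.X * RatFunc.X) ≠ (RatFunc.X * RatFunc.X : RatFunc (ZMod 2)) := by
  rw [map_mul, tau_X]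
  intro h
  have h2 : (2 : RatFunc (ZMod 2)) = 0 := by
    have := CharP.cast_eq_zero (RatFunc (ZMod 2)) 2
    exact_mod_cast this
  have h3 : (RatFunc.X + 1) * (RatFunc.X + 1) = (RatFunc.X * RatFunc.X : RatFunc (ZMod 2)) + 1 := by
    linear_combination RatFunc.X * h2
  rw [h3] at h
  have : (1 : RatFunc (ZMod 2)) = 0 := by linear_combination h
  exact one_ne_zero this

end Pool.Agent.W674.Tits
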