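import Mathlib

/-!
# Twisted projective linear groups in characteristic two

`K` a field with an automorphism `τ` of order two and a `τ`-invariant homomorphism `d : Kˣ → ℤ`.
The maps `x ↦ M • τ ^ (d (det M)) x` form a sharply 3-transitive group on the projective line.
-/

set_option autoImplicit false

namespace Pool.Agent.W674.Tits

open Matrix OnePoint

structure Data (K : Type) [Field K] where
  τ : K →+* K
  invol : ∀ x, τ (τ x) = x
  d : K → ℤ
  d_mul : ∀ x y, x ≠ 0 → y ≠ 0 → d (x * y) = d x + d y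
  d_τ : ∀ x, d (τ x) = d x

variable {K : Type} [Field K] (D : Data K)

namespace Data

/-- `τ ^ z` -/
def tw (z : ZMod 2) : K →+* K := if z = 0 then RingHom.id K else D.τ

theorem tw_zero : D.tw 0 = RingHom.id K := by simp [tw]

theorem tw_one : D.tw 1 = D.τ := by simp [tw]

theorem tw_add (z w : ZMod 2) : D.tw (z + w) = (D.tw z).comp (D.tw w) := by
  have h2 : ∀ x : ZMod 2, x = 0 ∨ x = 1 := by decide
  rcases h2 z with rfl | rfl <;> rcases h2 w with rfl | rfl
  · ext; simp [tw_zero]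
  · ext; simp [tw_zero]
  · ext; simp [tw_zero]
  · have : (1 : ZMod 2) + 1 = 0 := by decide
    rw [this]
    ext x
    simp [tw_zero, tw_one, D.invol]

theorem d_tw (z : ZMod 2) (x : K) : D.d (D.tw z x) = D.d x := by
  have h2 : ∀ x : ZMod 2, x = 0 ∨ x = 1 := by decide
  rcases h2 z with rfl | rfl
  · simp [tw_zero]
  · simp [tw_one, D.d_τ]

theorem d_one : D.d 1 = 0 := by
  have := D.d_mul 1 1 one_ne_zero one_ne_zero
  simp at this
  exact this

/-- parity of the degree -/
def par (x : K) : ZMod 2 := (D.d x : ZMod 2)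

theorem par_mul {x y : K} (hx : x ≠ 0) (hy : y ≠ 0) : D.par (x * y) = D.par x + D.par y := by
  simp [par, D.d_mul x y hx hy]

theorem par_tw (z : ZMod 2) (x : K) : D.par (D.tw z x) = D.par x := by
  simp [par, D.d_tw]

theorem par_one : D.par 1 = 0 := by simp [par, D.d_one]

theorem par_inv {x : K} (hx : x ≠ 0) : D.par x⁻¹ = D.par x := by
  have h := D.par_mul hx (inv_ne_zero hx)
  rw [mul_inv_cancel₀ hx, D.par_one] at h
  have h2 : ∀ a b : ZMod 2, 0 = a + b → b = a := by decide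
  exact h2 _ _ h

/-- the parity of a matrix -/
def pm (M : GL (Fin 2) K) : ZMod 2 := D.par (M : Matrix (Fin 2) (Fin 2) K).det

theorem det_ne (M : GL (Fin 2) K) : (M : Matrix (Fin 2) (Fin 2) K).det ≠ 0 := M.det_ne_zero

theorem pm_mul (M N : GL (Fin 2) K) : D.pm (M * N) = D.pm M + D.pm N := by
  unfold pm
  rw [Units.val_mul, Matrix.det_mul, D.par_mul (det_ne M) (det_ne N)]

theorem pm_map (z : ZMod 2) (N : GL (Fin 2) K) :
    D.pm (N.map (D.tw z)) = D.pm N := by
  unfold pm
  have : ((N.map (D.tw z) : GL (Fin 2) K) : Matrix (Fin 2) (Fin 2) K).det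
      = D.tw z (N : Matrix (Fin 2) (Fin 2) K).det := by
    rw [Matrix.det_fin_two, Matrix.det_fin_two]
    simp
  rw [this, D.par_tw]

variable [DecidableEq K]

/-- the map `x ↦ M • τ ^ (pm M) x` -/
noncomputable def f (M : GL (Fin 2) K) (x : OnePoint K) : OnePoint K :=
  M • (OnePoint.map (D.tw (D.pm M)) x)

theorem map_comp' (z w : ZMod 2) (x : OnePoint K) :
    OnePoint.map (D.tw z) (OnePoint.map (D.tw w) x) = OnePoint.map (D.tw (z + w)) x := by
  rw [D.tw_add]
  cases x <;> simp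

theorem f_comp (M N : GL (Fin 2) K) (x : OnePoint K) :
    D.f M (D.f N x) = D.f (M * N.map (D.tw (D.pm M))) x := by
  unfold f
  rw [OnePoint.map_smul, map_comp', D.pm_mul, D.pm_map, mul_smul]

theorem map_id' (x : OnePoint K) : OnePoint.map (D.tw 0) x = x := by
  rw [tw_zero]; cases x <;> simp

theorem f_one (x : OnePoint K) : D.f 1 x = x := by
  unfold f
  have : D.pm (1 : GL (Fin 2) K) = 0 := by simp [pm, par_one]
  rw [this, map_id', one_smul]

theorem pm_inv (M : GL (Fin 2) K) : D.pm M⁻¹ = D.pm M := by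
  have h := D.pm_mul M M⁻¹
  rw [mul_inv_cancel] at h
  have h1 : D.pm (1 : GL (Fin 2) K) = 0 := by simp [pm, par_one]
  rw [h1] at h
  have h2 : ∀ a b : ZMod 2, 0 = a + b → b = a := by decide
  exact h2 _ _ h

/-- the inverse map -/
noncomputable def iv (M : GL (Fin 2) K) : GL (Fin 2) K := (M⁻¹).map (D.tw (D.pm M))

theorem zz (z : ZMod 2) : z + z = 0 := by revert z; decide

theorem tw_tw (z : ZMod 2) (x : K) : D.tw z (D.tw z x) = x := by
  have := D.tw_add z z
  rw [zz, tw_zero] at this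
  exact (RingHom.congr_fun this x).symm

theorem f_iv (M : GL (Fin 2) K) (x : OnePoint K) : D.f (D.iv M) (D.f M x) = x := by
  rw [f_comp]
  have h1 : D.pm (D.iv M) = D.pm M := by unfold iv; rw [D.pm_map, D.pm_inv]
  rw [h1]
  have : D.iv M * M.map (D.tw (D.pm M)) = 1 := by
    unfold iv
    rw [← map_mul, inv_mul_cancel, map_one]
  rw [this, f_one]

theorem f_iv' (M : GL (Fin 2) K) (x : OnePoint K) : D.f M (D.f (D.iv M) x) = x := by
  rw [f_comp]
  have : M * (D.iv M).map (D.tw (D.pm M)) = 1 := by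
    unfold iv
    have : Matrix.GeneralLinearGroup.map (D.tw (D.pm M))
        (Matrix.GeneralLinearGroup.map (D.tw (D.pm M)) M⁻¹) = M⁻¹ := by
      ext i j
      simp only [Matrix.GeneralLinearGroup.map_apply]
      exact D.tw_tw _ _
    rw [this, mul_inv_cancel]
  rw [this, f_one]

/-- the permutation given by `M` -/
noncomputable def perm (M : GL (Fin 2) K) : Equiv.Perm (OnePoint K) where
  toFun := D.f M
  invFun := D.f (D.iv M)
  left_inv := D.f_iv M
  right_inv := D.f_iv' M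

/-- the twisted projective group -/
noncomputable def G : Subgroup (Equiv.Perm (OnePoint K)) where
  carrier := Set.range D.perm
  one_mem' := ⟨1, by apply Equiv.ext; intro x; exact D.f_one x⟩
  mul_mem' := by
    rintro _ _ ⟨M, rfl⟩ ⟨N, rfl⟩
    refine ⟨M * N.map (D.tw (D.pm M)), ?_⟩
    apply Equiv.ext
    intro x
    exact (D.f_comp M N x).symm
  inv_mem' := by
    rintro _ ⟨M, rfl⟩
    refine ⟨D.iv M, ?_⟩
    apply Equiv.ext
    intro x
    rfl

theorem perm_apply (M : GL (Fin 2) K) (x : OnePoint K) :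
    D.perm M x = M • (OnePoint.map (D.tw (D.pm M)) x) := rfl

theorem perm_infty (M : GL (Fin 2) K) : D.perm M ∞ = M • (∞ : OnePoint K) := by
  rw [perm_apply]; simp

theorem perm_zero (M : GL (Fin 2) K) :
    D.perm M ((0 : K) : OnePoint K) = M • ((0 : K) : OnePoint K) := by
  rw [perm_apply]; simp

theorem perm_one (M : GL (Fin 2) K) :
    D.perm M ((1 : K) : OnePoint K) = M • ((1 : K) : OnePoint K) := by
  rw [perm_apply]; simp

omit D in
theorem tr3 (a b c : OnePoint K) (hab : a ≠ b) (hac : a ≠ c) (hbc : b ≠ c) :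
    ∃ M : GL (Fin 2) K, M • (∞ : OnePoint K) = a ∧ M • ((0 : K) : OnePoint K) = b ∧
      M • ((1 : K) : OnePoint K) = c := by
  obtain ⟨g, hg⟩ : ∃ g : GL (Fin 2) K, g • (∞ : OnePoint K) = a := by
    induction a using OnePoint.rec with
    | infty => exact ⟨1, one_smul _ _⟩
    | coe t =>
      refine ⟨Matrix.GeneralLinearGroup.mkOfDetNeZero !![t, 1; 1, 0] (by simp), ?_⟩
      rw [OnePoint.smul_infty_eq_ite]
      simp [Matrix.GeneralLinearGroup.mkOfDetNeZero]
  have hb : g⁻¹ • b ≠ ∞ := fun h => hab (by rw [← hg, ← h, smul_inv_smul])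
  have hc : g⁻¹ • c ≠ ∞ := fun h => hac (by rw [← hg, ← h, smul_inv_smul])
  obtain ⟨b', hb'⟩ := OnePoint.ne_infty_iff_exists.1 hb
  obtain ⟨c', hc'⟩ := OnePoint.ne_infty_iff_exists.1 hc
  have hne : c' - b' ≠ 0 := by
    intro h
    rw [sub_eq_zero] at h
    rw [h] at hc'
    exact hbc (smul_left_cancel g⁻¹ (hb'.symm.trans hc'))
  refine ⟨g * Matrix.GeneralLinearGroup.mkOfDetNeZero !![c' - b', b'; 0, 1] (by simpa), ?_, ?_, ?_⟩
  · rw [mul_smul, OnePoint.smul_infty_eq_ite]
    simp [Matrix.GeneralLinearGroup.mkOfDetNeZero, hg]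
  · rw [mul_smul, OnePoint.smul_some_eq_ite]
    simp [Matrix.GeneralLinearGroup.mkOfDetNeZero, hb']
  · rw [mul_smul, OnePoint.smul_some_eq_ite]
    simp [Matrix.GeneralLinearGroup.mkOfDetNeZero, hc']

theorem tr (a b c : OnePoint K) (hab : a ≠ b) (hac : a ≠ c) (hbc : b ≠ c) :
    ∃ g : D.G, (g : Equiv.Perm (OnePoint K)) ∞ = a ∧
      (g : Equiv.Perm (OnePoint K)) ((0 : K) : OnePoint K) = b ∧
      (g : Equiv.Perm (OnePoint K)) ((1 : K) : OnePoint K) = c := by
  obtain ⟨M, h1, h2, h3⟩ := tr3 a b c hab hac hbc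
  exact ⟨⟨D.perm M, M, rfl⟩, by rw [perm_infty, h1], by rw [perm_zero, h2],
    by rw [perm_one, h3]⟩

/-- an element fixing `∞` and `0` -/
theorem stab (g : D.G) (h1 : (g : Equiv.Perm (OnePoint K)) ∞ = ∞)
    (h2 : (g : Equiv.Perm (OnePoint K)) ((0 : K) : OnePoint K) = ((0 : K) : OnePoint K)) :
    ∃ u : K, u ≠ 0 ∧ ∀ x : K, (g : Equiv.Perm (OnePoint K)) (x : OnePoint K) =
      ((u * D.tw (D.par u) x : K) : OnePoint K) := by
  obtain ⟨_, M, rfl⟩ := g
  change D.perm M ∞ = ∞ at h1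
  change D.perm M ((0 : K) : OnePoint K) = _ at h2
  rw [perm_infty, OnePoint.smul_infty_eq_self_iff] at h1
  have hd := M.det_ne_zero
  rw [Matrix.det_fin_two, h1, mul_zero, sub_zero] at hd
  have h11 : M 1 1 ≠ 0 := right_ne_zero_of_mul hd
  have h00 : M 0 0 ≠ 0 := left_ne_zero_of_mul hd
  rw [perm_zero, OnePoint.smul_some_eq_ite, mul_zero, zero_add, if_neg h11, mul_zero,
    zero_add, OnePoint.coe_eq_coe] at h2
  have h01 : M 0 1 = 0 := by
    rcases div_eq_zero_iff.1 h2 with h | h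
    · exact h
    · exact absurd h h11
  refine ⟨M 0 0 / M 1 1, div_ne_zero h00 h11, fun x => ?_⟩
  have hpm : D.pm M = D.par (M 0 0 / M 1 1) := by
    unfold pm
    rw [Matrix.det_fin_two, h1, mul_zero, sub_zero, div_eq_mul_inv, D.par_mul h00 h11,
      D.par_mul h00 (inv_ne_zero h11), D.par_inv h11]
  change D.perm M x = _
  rw [perm_apply, ← hpm, OnePoint.map_some, OnePoint.smul_some_eq_ite, h1, zero_mul, zero_add,
    if_neg h11, h01, add_zero, OnePoint.coe_eq_coe]
  ring

theorem diag_mem (u : K) (hu : u ≠ 0) :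
    ∃ g : D.G, (g : Equiv.Perm (OnePoint K)) ∞ = ∞ ∧
      ∀ x : K, (g : Equiv.Perm (OnePoint K)) (x : OnePoint K) =
      ((u * D.tw (D.par u) x : K) : OnePoint K) := by
  let M : GL (Fin 2) K := Matrix.GeneralLinearGroup.mkOfDetNeZero !![u, 0; 0, 1] (by simpa)
  have hM : D.pm M = D.par u := by
    unfold pm
    congr 1
    simp [M, Matrix.GeneralLinearGroup.mkOfDetNeZero]
  refine ⟨⟨D.perm M, M, rfl⟩, ?_, fun x => ?_⟩
  · change D.perm M ∞ = ∞
    rw [perm_infty, OnePoint.smul_infty_eq_self_iff]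
    simp [M, Matrix.GeneralLinearGroup.mkOfDetNeZero]
  · change D.perm M x = _
    rw [perm_apply, hM, OnePoint.map_some, OnePoint.smul_some_eq_ite]
    simp [M, Matrix.GeneralLinearGroup.mkOfDetNeZero]

end Data

end Pool.Agent.W674.Tits
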